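import Mathlib

/-! Linear relations between Moebius transforms of independent points: reduction to the classes. -/

set_option autoImplicit false

open Filter Topology
open scoped ComplexConjugate

namespace Pool.Agent.N207.HY

lemma group_sum {n k : ℕ} (κ : Fin n → Fin k) (e b : Fin n → ℂ) (he : ∀ i, 0 < (e i).im)
    (h : ∀ x : Fin k → ℂ, (∀ i, x (κ i) ≠ conj (e i)) →
      ∑ i, b i * ((x (κ i) - e i) / (x (κ i) - conj (e i))) = 0) (i0 : Fin n) :
    ∑ i ∈ Finset.univ.filter (fun i => κ i = κ i0 ∧ e i = e i0), b i = 0 := by
  classical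
  set x : ℂ → Fin k → ℂ := fun t j => if j = κ i0 then conj (e i0) + t else 0 with hx
  set L : Fin n → ℂ := fun i => if κ i = κ i0 ∧ e i = e i0 then (conj (e i0) - e i0) else 0 with hL
  have h1 : ∀ i, Tendsto (fun t : ℂ => t * ((x t (κ i) - e i) / (x t (κ i) - conj (e i)))) (𝓝[≠] 0) (𝓝 (L i)) := by
    intro i
    by_cases hk : κ i = κ i0
    · have hxi : ∀ t, x t (κ i) = conj (e i0) + t := fun t => by simp [hx, hk]
      by_cases hei : e i = e i0
      · have hLi : L i = conj (e i0) - e i0 := by simp [hL, hk, hei]
        rw [hLi]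
        have h2 : Tendsto (fun t : ℂ => conj (e i0) + t - e i0) (𝓝[≠] 0) (𝓝 (conj (e i0) + 0 - e i0)) := by
          refine Tendsto.mono_left ?_ nhdsWithin_le_nhds
          exact ((continuous_const.add continuous_id).sub continuous_const).tendsto 0
        rw [add_zero] at h2
        refine h2.congr' ?_
        filter_upwards [self_mem_nhdsWithin] with t ht
        have ht' : t ≠ 0 := ht
        rw [hxi, hei]
        have : conj (e i0) + t - conj (e i0) = t := by ring
        rw [this]
        field_simp
      · have hLi : L i = 0 := by simp [hL, hei]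
        rw [hLi]
        have hne : conj (e i0) + 0 - conj (e i) ≠ 0 := by
          rw [add_zero]
          intro h0
          apply hei
          have := sub_eq_zero.1 h0
          exact ((starRingEnd ℂ).injective this).symm
        have h2 : ContinuousAt (fun t : ℂ => t * ((conj (e i0) + t - e i) / (conj (e i0) + t - conj (e i)))) 0 := by
          refine continuousAt_id.mul (ContinuousAt.div ?_ ?_ hne)
          · exact ((continuous_const.add continuous_id).sub continuous_const).continuousAt
          · exact ((continuous_const.add continuous_id).sub continuous_const).continuousAt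
        have h3 := h2.tendsto
        simp only [zero_mul] at h3
        refine (h3.mono_left nhdsWithin_le_nhds).congr fun t => ?_
        rw [hxi]
    · have hLi : L i = 0 := by simp [hL, hk]
      have hxi : ∀ t, x t (κ i) = 0 := fun t => by simp [hx, hk]
      rw [hLi]
      have h2 : Tendsto (fun t : ℂ => t * ((0 - e i) / (0 - conj (e i)))) (𝓝[≠] 0) (𝓝 (0 * ((0 - e i) / (0 - conj (e i))))) := by
        refine Tendsto.mono_left ?_ nhdsWithin_le_nhds
        exact (continuous_id.mul continuous_const).tendsto 0
      rw [zero_mul] at h2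
      refine h2.congr fun t => ?_
      rw [hxi]
  have h2 : Tendsto (fun t : ℂ => ∑ i, b i * (t * ((x t (κ i) - e i) / (x t (κ i) - conj (e i))))) (𝓝[≠] 0)
      (𝓝 (∑ i, b i * L i)) := tendsto_finsetSum _ fun i _ => (h1 i).const_mul (b i)
  have h3 : ∀ᶠ t : ℂ in 𝓝[≠] 0, ∀ i, x t (κ i) ≠ conj (e i) := by
    rw [Filter.eventually_all]
    intro i
    by_cases hk : κ i = κ i0
    · have hxi : ∀ t, x t (κ i) = conj (e i0) + t := fun t => by simp [hx, hk]
      by_cases hei : e i = e i0
      · filter_upwards [self_mem_nhdsWithin] with t ht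
        have ht' : t ≠ 0 := ht
        rw [hxi, hei]
        intro h0
        apply ht'
        linear_combination h0
      · have hc : ContinuousAt (fun t : ℂ => conj (e i0) + t) 0 := (continuous_const.add continuous_id).continuousAt
        have hne : conj (e i0) + 0 ≠ conj (e i) := by
          rw [add_zero]
          intro h0
          exact hei ((starRingEnd ℂ).injective h0).symm
        have := hc.eventually_ne hne
        refine (this.filter_mono nhdsWithin_le_nhds).mono fun t ht => ?_
        rw [hxi]
        exact ht
    · refine Eventually.of_forall fun t => ?_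
      have hxi : x t (κ i) = 0 := by simp [hx, hk]
      rw [hxi]
      intro h0
      have := congrArg Complex.im h0
      simp only [Complex.zero_im, Complex.conj_im] at this
      have := he i
      linarith
  have h4 : (fun t : ℂ => ∑ i, b i * (t * ((x t (κ i) - e i) / (x t (κ i) - conj (e i))))) =ᶠ[𝓝[≠] 0] fun _ => 0 := by
    filter_upwards [h3] with t ht
    have := h (x t) ht
    calc ∑ i, b i * (t * ((x t (κ i) - e i) / (x t (κ i) - conj (e i))))
        = t * ∑ i, b i * ((x t (κ i) - e i) / (x t (κ i) - conj (e i))) := by
          rw [Finset.mul_sum]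
          exact Finset.sum_congr rfl fun i _ => by ring
      _ = 0 := by rw [this, mul_zero]
  have h5 : ∑ i, b i * L i = 0 := tendsto_nhds_unique (h2.congr' h4) tendsto_const_nhds
  have h6 : ∑ i, b i * L i = (∑ i ∈ Finset.univ.filter (fun i => κ i = κ i0 ∧ e i = e i0), b i) * (conj (e i0) - e i0) := by
    rw [Finset.sum_filter, Finset.sum_mul]
    refine Finset.sum_congr rfl fun i _ => ?_
    simp only [hL]
    split_ifs <;> simp
  rw [h6] at h5
  rcases mul_eq_zero.1 h5 with h7 | h7
  · exact h7
  · exfalso
    have := congrArg Complex.im h7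
    simp only [Complex.sub_im, Complex.conj_im, Complex.zero_im] at this
    have := he i0
    linarith

lemma total_sum {n k : ℕ} (κ : Fin n → Fin k) (e b w : Fin n → ℂ)
    (h : ∀ i0, ∑ i ∈ Finset.univ.filter (fun i => κ i = κ i0 ∧ e i = e i0), b i = 0)
    (hw : ∀ i j, κ i = κ j → e i = e j → w i = w j) : ∑ i, b i * w i = 0 := by
  classical
  rw [← Finset.sum_fiberwise_of_maps_to (s := Finset.univ) (t := Finset.univ.image fun i => (κ i, e i))
    (g := fun i => (κ i, e i)) (fun i hi => Finset.mem_image_of_mem _ hi)]
  refine Finset.sum_eq_zero fun y hy => ?_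
  obtain ⟨i0, -, rfl⟩ := Finset.mem_image.1 hy
  have h1 : ∑ i ∈ Finset.univ.filter (fun i => (κ i, e i) = (κ i0, e i0)), b i * w i =
      (∑ i ∈ Finset.univ.filter (fun i => κ i = κ i0 ∧ e i = e i0), b i) * w i0 := by
    rw [Finset.sum_mul]
    refine Finset.sum_congr ?_ fun i hi => ?_
    · ext i
      simp [Prod.ext_iff]
    · have h2 := (Finset.mem_filter.1 hi).2
      rw [hw i i0 h2.1 h2.2]
  rw [h1, h i0, zero_mul]

end Pool.Agent.N207.HY
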