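import Mathlib

/-! Moebius transforms in Harish-Chandra coordinates. -/

set_option autoImplicit false

open scoped ComplexConjugate

namespace Pool.Agent.N207.HY

variable {A B C D : ℚ} {o : ℂ}

lemma cd_ne (hdet : 0 < A * D - B * C) {x : ℂ} (hx : 0 < x.im) : (C : ℂ) * x + D ≠ 0 := by
  intro h
  have h1 := congrArg Complex.im h
  have h2 := congrArg Complex.re h
  simp only [Complex.add_im, Complex.mul_im, Complex.ratCast_re, Complex.ratCast_im, Complex.zero_im,
    Complex.add_re, Complex.mul_re, Complex.zero_re, zero_mul, add_zero, sub_zero] at h1 h2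
  have h3 : (C : ℝ) = 0 := by
    rcases mul_eq_zero.1 h1 with h | h
    · exact h
    · exact absurd h hx.ne'
  rw [h3, zero_mul, zero_add] at h2
  have h4 : C = 0 := by exact_mod_cast h3
  have h5 : D = 0 := by exact_mod_cast h2
  rw [h4, h5] at hdet
  simp at hdet

lemma ac_ne (hdet : 0 < A * D - B * C) (ho : 0 < o.im) : (A : ℂ) - o * C ≠ 0 := by
  intro h
  have h1 := congrArg Complex.im h
  have h2 := congrArg Complex.re h
  simp only [Complex.sub_im, Complex.mul_im, Complex.ratCast_re, Complex.ratCast_im, Complex.zero_im,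
    Complex.sub_re, Complex.mul_re, Complex.zero_re, mul_zero, zero_add, sub_zero, zero_sub, neg_eq_zero] at h1 h2
  have h3 : (C : ℝ) = 0 := by
    rcases mul_eq_zero.1 h1 with h | h
    · exact absurd h ho.ne'
    · exact h
  rw [h3, mul_zero, sub_zero] at h2
  have h4 : C = 0 := by exact_mod_cast h3
  have h5 : A = 0 := by exact_mod_cast h2
  rw [h4, h5] at hdet
  simp at hdet

lemma acc_ne (hdet : 0 < A * D - B * C) (ho : 0 < o.im) : (A : ℂ) - conj o * C ≠ 0 := by
  intro h
  apply ac_ne hdet ho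
  have := congrArg (starRingEnd ℂ) h
  simpa using this

/-- the inverse image of `o` -/
noncomputable def ee (A B C D : ℚ) (o : ℂ) : ℂ := (o * D - B) / (A - o * C)

/-- the factor -/
noncomputable def lam (A C : ℚ) (o : ℂ) : ℂ := (A - o * C) / (A - conj o * C)

lemma lam_ne (hdet : 0 < A * D - B * C) (ho : 0 < o.im) : lam A C o ≠ 0 :=
  div_ne_zero (ac_ne hdet ho) (acc_ne hdet ho)

lemma conj_ee : conj (ee A B C D o) = (conj o * D - B) / (A - conj o * C) := by
  unfold ee
  simp

lemma ee_im (hdet : 0 < A * D - B * C) (ho : 0 < o.im) : 0 < (ee A B C D o).im := by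
  have h0 := ac_ne hdet ho
  have h1 : ee A B C D o * (A - o * C) = o * D - B := by
    unfold ee
    field_simp
  set e := ee A B C D o with he
  have hi := congrArg Complex.im h1
  have hr := congrArg Complex.re h1
  simp only [Complex.sub_im, Complex.mul_im, Complex.ratCast_re, Complex.ratCast_im,
    Complex.sub_re, Complex.mul_re, mul_zero, zero_add, sub_zero, zero_sub] at hi hr
  have h2 : e.im * (((A : ℝ) - o.re * C) ^ 2 + (o.im * C) ^ 2) = o.im * (A * D - B * C) := by
    linear_combination ((A : ℝ) - o.re * C) * hi + (o.im * C) * hr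
  have h3 : 0 < o.im * ((A : ℝ) * D - B * C) := by
    refine mul_pos ho ?_
    exact_mod_cast hdet
  rw [← h2] at h3
  have h4 : 0 ≤ ((A : ℝ) - o.re * C) ^ 2 + (o.im * C) ^ 2 := by positivity
  exact pos_of_mul_pos_left h3 h4

lemma num_eq (hdet : 0 < A * D - B * C) (ho : 0 < o.im) (x : ℂ) :
    (A : ℂ) * x + B - o * (C * x + D) = (A - o * C) * (x - ee A B C D o) := by
  have h0 := ac_ne hdet ho
  unfold ee
  field_simp
  ring

lemma den_eq (hdet : 0 < A * D - B * C) (ho : 0 < o.im) (x : ℂ) :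
    (A : ℂ) * x + B - conj o * (C * x + D) = (A - conj o * C) * (x - conj (ee A B C D o)) := by
  have h0 := acc_ne hdet ho
  rw [conj_ee]
  field_simp
  ring

lemma coord_eq (hdet : 0 < A * D - B * C) (ho : 0 < o.im) {x : ℂ} (hx : 0 < x.im) :
    (((A : ℂ) * x + B) / (C * x + D) - o) / (((A : ℂ) * x + B) / (C * x + D) - conj o) =
      lam A C o * ((x - ee A B C D o) / (x - conj (ee A B C D o))) := by
  have h0 := cd_ne hdet hx
  have h1 : ((A : ℂ) * x + B) / (C * x + D) - o = ((A : ℂ) * x + B - o * (C * x + D)) / (C * x + D) := by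
    rw [eq_div_iff h0, sub_mul, div_mul_cancel₀ _ h0]
  have h2 : ((A : ℂ) * x + B) / (C * x + D) - conj o = ((A : ℂ) * x + B - conj o * (C * x + D)) / (C * x + D) := by
    rw [eq_div_iff h0, sub_mul, div_mul_cancel₀ _ h0]
  rw [h1, h2, num_eq hdet ho, den_eq hdet ho, div_div_div_cancel_right₀ h0]
  unfold lam
  rw [mul_div_mul_comm]

lemma o_eq (hdet : 0 < A * D - B * C) (ho : 0 < o.im) :
    o = ((A : ℂ) * ee A B C D o + B) / (C * ee A B C D o + D) := by
  have h1 := num_eq hdet ho (ee A B C D o)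
  rw [sub_self, mul_zero] at h1
  have h2 := cd_ne hdet (ee_im hdet ho)
  rw [eq_div_iff h2]
  exact (sub_eq_zero.1 h1).symm

/-- `(o', τ')` is the image of `(o, τ)` under an element of `GL_2^+(ℚ)`. -/
def Equivalent (o τ o' τ' : ℂ) : Prop :=
  ∃ a b c d : ℚ, 0 < a * d - b * c ∧ o' = ((a : ℂ) * o + b) / (c * o + d) ∧ τ' = ((a : ℂ) * τ + b) / (c * τ + d)

lemma comp_eq {A' B' C' D' : ℚ} (hdet : 0 < A * D - B * C) (hdet' : 0 < A' * D' - B' * C') {x y y' : ℂ} (hx : 0 < x.im)
    (hy : y = ((A : ℂ) * x + B) / (C * x + D)) (hy' : y' = ((A' : ℂ) * x + B') / (C' * x + D')) :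
    y' = (((A' * D - B' * C : ℚ) : ℂ) * y + ((B' * A - A' * B : ℚ) : ℂ)) /
      (((C' * D - D' * C : ℚ) : ℂ) * y + ((D' * A - C' * B : ℚ) : ℂ)) := by
  have h0 := cd_ne hdet hx
  have h0' := cd_ne hdet' hx
  have hd : ((A : ℂ) * D - B * C) ≠ 0 := by exact_mod_cast hdet.ne'
  have h1 : ((A' * D - B' * C : ℚ) : ℂ) * y + ((B' * A - A' * B : ℚ) : ℂ) =
      ((A : ℂ) * D - B * C) * (A' * x + B') / (C * x + D) := by
    rw [hy]
    push_cast
    field_simp
    ring
  have h2 : ((C' * D - D' * C : ℚ) : ℂ) * y + ((D' * A - C' * B : ℚ) : ℂ) =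
      ((A : ℂ) * D - B * C) * (C' * x + D') / (C * x + D) := by
    rw [hy]
    push_cast
    field_simp
    ring
  rw [h1, h2, hy', div_div_div_cancel_right₀ h0, mul_div_mul_left _ _ hd]

lemma equivalent {A' B' C' D' : ℚ} {o' : ℂ} (hdet : 0 < A * D - B * C) (hdet' : 0 < A' * D' - B' * C')
    (ho : 0 < o.im) (ho' : 0 < o'.im) {v : ℂ} (hv : 0 < v.im) (he : ee A B C D o = ee A' B' C' D' o') :
    Equivalent o (((A : ℂ) * v + B) / (C * v + D)) o' (((A' : ℂ) * v + B') / (C' * v + D')) := by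
  refine ⟨A' * D - B' * C, B' * A - A' * B, C' * D - D' * C, D' * A - C' * B, ?_, ?_, ?_⟩
  · have : (A' * D - B' * C) * (D' * A - C' * B) - (B' * A - A' * B) * (C' * D - D' * C) =
        (A * D - B * C) * (A' * D' - B' * C') := by ring
    rw [this]
    exact mul_pos hdet hdet'
  · exact comp_eq hdet hdet' (ee_im hdet ho) (o_eq hdet ho) (he ▸ o_eq hdet' ho')
  · exact comp_eq hdet hdet' hv rfl rfl

/-- The quotient of the coordinates of equivalent points. -/
lemma coord_quot {a b c d : ℚ} {o τ : ℂ} (hdet : 0 < a * d - b * c) (ho : 0 < o.im) (hτ : 0 < τ.im) :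
    (((a : ℂ) * τ + b) / (c * τ + d) - ((a : ℂ) * o + b) / (c * o + d)) /
      (((a : ℂ) * τ + b) / (c * τ + d) - conj (((a : ℂ) * o + b) / (c * o + d))) =
      ((c * conj o + d) / (c * o + d)) * ((τ - o) / (τ - conj o)) := by
  have h1 := cd_ne hdet ho
  have h2 := cd_ne hdet hτ
  have h3 : (c : ℂ) * conj o + d ≠ 0 := by
    intro h
    apply h1
    have := congrArg (starRingEnd ℂ) h
    simpa using this
  have h4 : conj (((a : ℂ) * o + b) / (c * o + d)) = ((a : ℂ) * conj o + b) / (c * conj o + d) := by simp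
  have hd : ((a : ℂ) * d - b * c) ≠ 0 := by exact_mod_cast hdet.ne'
  have h5 : ((a : ℂ) * τ + b) / (c * τ + d) - ((a : ℂ) * o + b) / (c * o + d) =
      ((a : ℂ) * d - b * c) * (τ - o) / ((c * τ + d) * (c * o + d)) := by
    rw [div_sub_div _ _ h2 h1]
    congr 1
    ring
  have h6 : ((a : ℂ) * τ + b) / (c * τ + d) - ((a : ℂ) * conj o + b) / (c * conj o + d) =
      ((a : ℂ) * d - b * c) * (τ - conj o) / ((c * τ + d) * (c * conj o + d)) := by
    rw [div_sub_div _ _ h2 h3]
    congr 1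
    ring
  have h7 : τ - conj o ≠ 0 := by
    intro h
    have := congrArg Complex.im h
    simp only [Complex.sub_im, Complex.conj_im, Complex.zero_im] at this
    linarith
  rw [h4, h5, h6]
  field_simp

end Pool.Agent.N207.HY
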