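import Mathlib

/-! The polynomial of a linear relation between Harish-Chandra coordinates. -/

set_option autoImplicit false

open scoped ComplexConjugate
open IntermediateField

namespace Pool.Agent.N207.HY

/-- `o` is an imaginary quadratic point of the upper half-plane. -/
def Special (o : ℂ) : Prop := 0 < o.im ∧ ∃ a b c : ℤ, a ≠ 0 ∧ (a : ℂ) * o ^ 2 + b * o + c = 0

lemma special_poly {o : ℂ} (h : Special o) : ∃ p : Polynomial ℚ, p ≠ 0 ∧ p.natDegree ≤ 2 ∧ Polynomial.aeval o p = 0 := by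
  obtain ⟨-, a, b, c, ha, h0⟩ := h
  refine ⟨Polynomial.C (a : ℚ) * Polynomial.X ^ 2 + Polynomial.C (b : ℚ) * Polynomial.X + Polynomial.C (c : ℚ), ?_, ?_, ?_⟩
  · intro hp
    have h1 := Polynomial.natDegree_quadratic (a := (a : ℚ)) (b := (b : ℚ)) (c := (c : ℚ)) (by exact_mod_cast ha)
    rw [hp] at h1
    simp at h1
  · exact Polynomial.natDegree_quadratic_le
  · simp only [map_add, map_mul, Polynomial.aeval_C, map_pow, Polynomial.aeval_X]
    simpa using h0

lemma special_integral {o : ℂ} (h : Special o) : IsIntegral ℚ o := by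
  obtain ⟨p, hp, -, h0⟩ := special_poly h
  exact isAlgebraic_iff_isIntegral.1 ⟨p, hp, h0⟩

lemma special_finrank {o : ℂ} (h : Special o) : Module.finrank ℚ ℚ⟮o⟯ ≤ 2 := by
  rw [IntermediateField.adjoin.finrank (special_integral h)]
  obtain ⟨p, hp, hd, h0⟩ := special_poly h
  exact (Polynomial.natDegree_le_of_dvd (minpoly.dvd ℚ o h0) hp).trans hd

lemma special_conj {o : ℂ} (h : Special o) : conj o ∈ ℚ⟮o⟯ := by
  obtain ⟨ho, a, b, c, ha, h0⟩ := h
  have ha' : (a : ℂ) ≠ 0 := by exact_mod_cast ha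
  have h1 : (a : ℂ) * conj o ^ 2 + b * conj o + c = 0 := by
    have := congrArg (starRingEnd ℂ) h0
    simpa using this
  have h2 : o - conj o ≠ 0 := by
    intro h
    have := congrArg Complex.im h
    simp only [Complex.sub_im, Complex.conj_im, Complex.zero_im] at this
    linarith
  have h3 : conj o = -(b : ℂ) / a - o := by
    have h4 : (o - conj o) * ((a : ℂ) * (o + conj o) + b) = 0 := by linear_combination h0 - h1
    have h5 := (mul_eq_zero.1 h4).resolve_left h2
    field_simp
    linear_combination h5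
  rw [h3]
  refine sub_mem (div_mem (neg_mem ?_) ?_) (IntermediateField.mem_adjoin_simple_self ℚ o)
  · exact intCast_mem _ b
  · exact intCast_mem _ a

lemma exists_field {n : ℕ} (o : Fin n → ℂ) (ho : ∀ i, Special (o i)) (K : IntermediateField ℚ ℂ) [FiniteDimensional ℚ K] :
    ∃ F : IntermediateField ℚ ℂ, FiniteDimensional ℚ F ∧ Module.finrank ℚ F ≤ Module.finrank ℚ K * 2 ^ n ∧ K ≤ F ∧
      ∀ i, o i ∈ F ∧ conj (o i) ∈ F := by
  classical
  have h1 : ∀ s : Finset (Fin n), FiniteDimensional ℚ (s.sup fun i => ℚ⟮o i⟯ : IntermediateField ℚ ℂ) ∧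
      Module.finrank ℚ (s.sup fun i => ℚ⟮o i⟯ : IntermediateField ℚ ℂ) ≤ 2 ^ s.card := by
    intro s
    induction s using Finset.induction_on with
    | empty =>
      rw [Finset.sup_empty, Finset.card_empty, pow_zero]
      refine ⟨inferInstance, ?_⟩
      rw [IntermediateField.finrank_bot]
    | insert i s hi ih =>
      rw [Finset.sup_insert, Finset.card_insert_of_notMem hi]
      have := ih.1
      have : FiniteDimensional ℚ ℚ⟮o i⟯ := IntermediateField.adjoin.finiteDimensional (special_integral (ho i))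
      refine ⟨inferInstance, ?_⟩
      calc Module.finrank ℚ (ℚ⟮o i⟯ ⊔ s.sup fun i => ℚ⟮o i⟯ : IntermediateField ℚ ℂ)
          ≤ Module.finrank ℚ ℚ⟮o i⟯ * Module.finrank ℚ (s.sup fun i => ℚ⟮o i⟯ : IntermediateField ℚ ℂ) :=
            IntermediateField.finrank_sup_le _ _
        _ ≤ 2 * 2 ^ s.card := Nat.mul_le_mul (special_finrank (ho i)) ih.2
        _ = 2 ^ (s.card + 1) := by ring
  obtain ⟨h2, h3⟩ := h1 Finset.univ
  have := h2
  refine ⟨K ⊔ Finset.univ.sup fun i => ℚ⟮o i⟯, inferInstance, ?_, le_sup_left, fun i => ?_⟩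
  · refine (IntermediateField.finrank_sup_le _ _).trans ?_
    refine Nat.mul_le_mul le_rfl ?_
    simpa using h3
  · have h4 : ℚ⟮o i⟯ ≤ K ⊔ Finset.univ.sup fun i => ℚ⟮o i⟯ :=
      (Finset.le_sup (f := fun i => ℚ⟮o i⟯) (Finset.mem_univ i)).trans le_sup_right
    exact ⟨h4 (IntermediateField.mem_adjoin_simple_self ℚ _), h4 (special_conj (ho i))⟩

variable {n k : ℕ} {F : Type} [Field F] [Algebra ℚ F]

open MvPolynomial in
/-- the linear factor -/
noncomputable def lin (κ : Fin n → Fin k) (A B C D : Fin n → ℚ) (o : Fin n → F) (i : Fin n) :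
    MvPolynomial (Option (Fin n) ⊕ Fin k) F :=
  MvPolynomial.C (algebraMap ℚ F (A i)) * X (Sum.inr (κ i)) + MvPolynomial.C (algebraMap ℚ F (B i)) -
    MvPolynomial.C (o i) * (MvPolynomial.C (algebraMap ℚ F (C i)) * X (Sum.inr (κ i)) + MvPolynomial.C (algebraMap ℚ F (D i)))

open MvPolynomial in
lemma lin_deg (κ : Fin n → Fin k) (A B C D : Fin n → ℚ) (o : Fin n → F) (i : Fin n) :
    (lin κ A B C D o i).totalDegree ≤ 1 := by
  unfold lin
  have h1 : ∀ c : F, (MvPolynomial.C c * X (Sum.inr (κ i)) : MvPolynomial (Option (Fin n) ⊕ Fin k) F).totalDegree ≤ 1 := by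
    intro c
    refine (totalDegree_mul _ _).trans ?_
    rw [totalDegree_C, totalDegree_X]
  have h2 : ∀ c d : F, (MvPolynomial.C c * X (Sum.inr (κ i)) + MvPolynomial.C d : MvPolynomial (Option (Fin n) ⊕ Fin k) F).totalDegree ≤ 1 := by
    intro c d
    refine (totalDegree_add _ _).trans (max_le (h1 c) ?_)
    rw [totalDegree_C]
    omega
  refine (totalDegree_sub _ _).trans (max_le (h2 _ _) ((totalDegree_mul _ _).trans ?_))
  rw [totalDegree_C, zero_add]
  exact h2 _ _

open MvPolynomial in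
/-- the polynomial -/
noncomputable def pol (κ : Fin n → Fin k) (A B C D : Fin n → ℚ) (o o' a : Fin n → F) :
    MvPolynomial (Option (Fin n) ⊕ Fin k) F :=
  ∑ i, MvPolynomial.C (a i) * X (Sum.inl (some i)) *
    (lin κ A B C D o i * ∏ l ∈ Finset.univ.erase i, lin κ A B C D o' l)

open MvPolynomial in
lemma pol_deg (κ : Fin n → Fin k) (A B C D : Fin n → ℚ) (o o' a : Fin n → F) :
    (pol κ A B C D o o' a).totalDegree ≤ n + 1 := by
  unfold pol
  refine totalDegree_finsetSum_le fun i _ => ?_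
  refine (totalDegree_mul _ _).trans ?_
  have h1 : (MvPolynomial.C (a i) * X (Sum.inl (some i)) : MvPolynomial (Option (Fin n) ⊕ Fin k) F).totalDegree ≤ 1 := by
    refine (totalDegree_mul _ _).trans ?_
    rw [totalDegree_C, totalDegree_X]
  have h2 : (lin κ A B C D o i * ∏ l ∈ Finset.univ.erase i, lin κ A B C D o' l).totalDegree ≤ 1 + (n - 1) := by
    refine (totalDegree_mul _ _).trans (Nat.add_le_add (lin_deg _ _ _ _ _ _ _) ?_)
    refine (totalDegree_finsetProd _ _).trans ?_
    refine (Finset.sum_le_card_nsmul _ _ 1 fun l _ => lin_deg _ _ _ _ _ _ _).trans ?_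
    rw [Finset.card_erase_of_mem (Finset.mem_univ i), Finset.card_univ, Fintype.card_fin]
    simp
  have h3 : 1 ≤ n := by
    have := i.2
    omega
  omega

open MvPolynomial in
lemma pol_eval [Algebra F ℂ] (κ : Fin n → Fin k) (A B C D : Fin n → ℚ) (o o' a : Fin n → F) (w : Option (Fin n) → ℂ)
    (x : Fin k → ℂ) : aeval (Sum.elim w x) (pol κ A B C D o o' a) =
      ∑ i, algebraMap F ℂ (a i) * w (some i) *
        (((A i : ℂ) * x (κ i) + B i - algebraMap F ℂ (o i) * (C i * x (κ i) + D i)) *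
          ∏ l ∈ Finset.univ.erase i, ((A l : ℂ) * x (κ l) + B l - algebraMap F ℂ (o' l) * (C l * x (κ l) + D l))) := by
  have hq : ∀ r : ℚ, algebraMap F ℂ (algebraMap ℚ F r) = (r : ℂ) := fun r => by
    simp
  have h1 : ∀ (o : Fin n → F) i, aeval (Sum.elim w x) (lin κ A B C D o i) =
      (A i : ℂ) * x (κ i) + B i - algebraMap F ℂ (o i) * (C i * x (κ i) + D i) := by
    intro o i
    unfold lin
    simp only [map_sub, map_add, map_mul, aeval_C, aeval_X, Sum.elim_inr, hq]
  unfold pol
  simp only [map_sum, map_mul, aeval_C, aeval_X, Sum.elim_inl, h1, map_prod]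

open MvPolynomial in
lemma eval_gen [Algebra F ℂ] (w : Option (Fin n) → ℂ) (x : Fin k → ℂ) (P : MvPolynomial (Option (Fin n) ⊕ Fin k) F) :
    MvPolynomial.eval x (aeval (Sum.elim (fun o => MvPolynomial.C (w o)) MvPolynomial.X :
      Option (Fin n) ⊕ Fin k → MvPolynomial (Fin k) ℂ) P) = aeval (Sum.elim w x) P := by
  rw [aeval_def, aeval_def, eval₂_comp_left]
  congr 1
  · ext c
    rw [RingHom.comp_apply, IsScalarTower.algebraMap_apply F ℂ (MvPolynomial (Fin k) ℂ), MvPolynomial.algebraMap_eq,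
      eval_C]
  · funext s
    rcases s with s | s <;> simp

end Pool.Agent.N207.HY
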