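import Pool.Agent.N207.HY.Core
import Pool.Agent.N207.HY.Moeb
import Pool.Agent.N207.HY.Poly

/-! Linear relations between Harish-Chandra coordinates of isogenous points. -/

set_option autoImplicit false

open scoped ComplexConjugate

namespace Pool.Agent.N207.HY

/-- the coordinate -/
noncomputable def crd (o τ : ℂ) : ℂ := (τ - o) / (τ - conj o)

lemma key {n k : ℕ} (κ : Fin n → Fin k) (A B C D : Fin n → ℚ) (hdet : ∀ i, 0 < A i * D i - B i * C i)
    (o c a : Fin n → ℂ) (ho : ∀ i, 0 < (o i).im) (v : Fin k → ℂ) (hv : ∀ s, 0 < (v s).im)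
    (τ : Fin n → ℂ) (hτ : ∀ i, τ i = ((A i : ℂ) * v (κ i) + B i) / (C i * v (κ i) + D i))
    (hpoly : ∀ x : Fin k → ℂ, ∑ i, a i * c i * (((A i : ℂ) * x (κ i) + B i - o i * (C i * x (κ i) + D i)) *
      ∏ l ∈ Finset.univ.erase i, ((A l : ℂ) * x (κ l) + B l - conj (o l) * (C l * x (κ l) + D l))) = 0)
    (u : Fin n → ℂ) (hu0 : ∀ i, τ i = o i → u i = 0)
    (hu : ∀ i j, Equivalent (o i) (τ i) (o j) (τ j) → u j * crd (o i) (τ i) = u i * crd (o j) (τ j)) :
    ∑ i, a i * (c i * u i) = 0 := by
  classical
  set e : Fin n → ℂ := fun i => ee (A i) (B i) (C i) (D i) (o i) with he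
  set l : Fin n → ℂ := fun i => lam (A i) (C i) (o i) with hl
  have hl0 : ∀ i, l i ≠ 0 := fun i => lam_ne (hdet i) (ho i)
  have hei : ∀ i, 0 < (e i).im := fun i => ee_im (hdet i) (ho i)
  have hrat : ∀ x : Fin k → ℂ, (∀ i, x (κ i) ≠ conj (e i)) →
      ∑ i, (a i * c i * l i) * ((x (κ i) - e i) / (x (κ i) - conj (e i))) = 0 := by
    intro x hx
    have h1 := hpoly x
    set den : Fin n → ℂ := fun i => ((A i : ℂ) * x (κ i) + B i - conj (o i) * (C i * x (κ i) + D i)) with hden
    have hd : ∀ i, den i = (A i - conj (o i) * C i) * (x (κ i) - conj (e i)) := fun i => den_eq (hdet i) (ho i) _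
    have hd0 : ∀ i, den i ≠ 0 := by
      intro i
      rw [hd]
      exact mul_ne_zero (acc_ne (hdet i) (ho i)) (sub_ne_zero.2 (hx i))
    have hP : ∏ i, den i ≠ 0 := Finset.prod_ne_zero_iff.2 fun i _ => hd0 i
    have h2 : ∑ i, a i * c i * (((A i : ℂ) * x (κ i) + B i - o i * (C i * x (κ i) + D i)) *
        ∏ l ∈ Finset.univ.erase i, den l) =
        (∑ i, (a i * c i * l i) * ((x (κ i) - e i) / (x (κ i) - conj (e i)))) * ∏ i, den i := by
      rw [Finset.sum_mul]
      refine Finset.sum_congr rfl fun i _ => ?_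
      rw [← Finset.mul_prod_erase Finset.univ den (Finset.mem_univ i), num_eq (hdet i) (ho i), hd i]
      have h3 := acc_ne (hdet i) (ho i)
      have h4 : x (κ i) - conj (e i) ≠ 0 := sub_ne_zero.2 (hx i)
      have h5 : l i * (A i - conj (o i) * C i) = A i - o i * C i := by
        show lam (A i) (C i) (o i) * _ = _
        unfold lam
        exact div_mul_cancel₀ _ h3
      have h6 : (x (κ i) - e i) / (x (κ i) - conj (e i)) * (x (κ i) - conj (e i)) = x (κ i) - e i :=
        div_mul_cancel₀ _ h4
      rw [← h5]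
      calc a i * c i * (l i * (A i - conj (o i) * C i) * (x (κ i) - ee (A i) (B i) (C i) (D i) (o i)) *
            ∏ l ∈ Finset.univ.erase i, den l)
          = a i * c i * l i * (A i - conj (o i) * C i) * (x (κ i) - e i) * ∏ l ∈ Finset.univ.erase i, den l := by
            simp only [he]; ring
        _ = a i * c i * l i * (A i - conj (o i) * C i) *
            ((x (κ i) - e i) / (x (κ i) - conj (e i)) * (x (κ i) - conj (e i))) * ∏ l ∈ Finset.univ.erase i, den l := by
            rw [h6]
        _ = _ := by ring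
    rw [h2] at h1
    exact (mul_eq_zero.1 h1).resolve_right hP
  have h1 := group_sum κ e (fun i => a i * c i * l i) hei hrat
  have h2 := total_sum κ e (fun i => a i * c i * l i) (fun i => u i / l i) h1 (by
    intro i j hk hee
    have heq : Equivalent (o i) (τ i) (o j) (τ j) := by
      rw [hτ i, hτ j, ← hk]
      exact equivalent (hdet i) (hdet j) (ho i) (ho j) (hv _) hee
    have h3 := hu i j heq
    have h4 : crd (o i) (τ i) = l i * ((v (κ i) - e i) / (v (κ i) - conj (e i))) := by
      unfold crd
      rw [hτ i]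
      exact coord_eq (hdet i) (ho i) (hv _)
    have h5 : crd (o j) (τ j) = l j * ((v (κ i) - e i) / (v (κ i) - conj (e i))) := by
      unfold crd
      rw [hτ j, ← hk, hee]
      exact coord_eq (hdet j) (ho j) (hv _)
    by_cases hR : v (κ i) = e i
    · have h6 : τ i = o i := by
        rw [hτ i, hR]
        exact (o_eq (hdet i) (ho i)).symm
      have h7 : τ j = o j := by
        rw [hτ j, ← hk, hR, hee]
        exact (o_eq (hdet j) (ho j)).symm
      simp only [hu0 i h6, hu0 j h7, zero_div]
    · have hR' : (v (κ i) - e i) / (v (κ i) - conj (e i)) ≠ 0 := by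
        refine div_ne_zero (sub_ne_zero.2 hR) (sub_ne_zero.2 fun h => ?_)
        have h6 := congrArg Complex.im h
        rw [Complex.conj_im] at h6
        have := hv (κ i)
        have := hei i
        linarith
      rw [h4, h5] at h3
      have h7 : u j * l i = u i * l j := by
        refine mul_right_cancel₀ hR' ?_
        linear_combination h3
      have h8 := hl0 i
      have h9 := hl0 j
      show u i / l i = u j / l j
      rw [div_eq_div_iff h8 h9]
      exact h7.symm)
  rw [← h2]
  refine Finset.sum_congr rfl fun i _ => ?_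
  have := hl0 i
  field_simp

end Pool.Agent.N207.HY
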